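import Mathlib
import Pool.Agent.Lib.helper32.Ufe

set_option autoImplicit false

namespace Pool.Agent.Results.MP_31068f_lc.Levels

open Pool.Agent.Lib.helper32.Ufe

/-- `F` lies in `L`: for some `n` it contains the set of integers with exactly `n` prime factors. -/
def InL (F : Ultrafilter ℕ+) : Prop := ∃ n : ℕ, {m : ℕ+ | ArithmeticFunction.cardFactors (m : ℕ) = n} ∈ F

/-- Finite embeddability does not imply M-divisibility on `L`. -/
theorem result : ∃ F G : Ultrafilter ℕ+, InL F ∧ InL G ∧ UFE F G ∧ ¬ DivM F G := by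
  refine ⟨F, G, ⟨1, Filter.mem_of_superset F_mem ?_⟩, ⟨2, Filter.mem_of_superset (G_mem 0) ?_⟩, FG,
    fun h => (div_G h).elim F_ne F_ne_G⟩
  · rintro _ ⟨k, rfl⟩
    exact ArithmeticFunction.cardFactors_apply_prime (pr_prime _)
  · rintro _ ⟨i, k, l, -, -, -, rfl⟩
    simp [ArithmeticFunction.cardFactors_mul, ArithmeticFunction.cardFactors_apply_prime (pr_prime _)]

end Pool.Agent.Results.MP_31068f_lc.Levels
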